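import Mathlib
import Pool.Agent.Q35.AV.Fin
import Pool.Agent.Q256.CI.Low
import Pool.Agent.Q256.VS.Inst

set_option autoImplicit false

/-!
# The n-term abc conjecture over `ℚ` at all values of almost all maps

We consider the points `P` with `r + 1` coordinates (`r + 1 ≥ 3` is the number `n` of the terms in
the conjecture) of the hyperplane `z_1 + … + z_(r+1) = 0` over `ℚ`.

`𝒴` is a set of rational points of `ℙⁿ` (given by coprime coordinates) with at most
`C B ^ (γ + ε)` points of height at most `log B` for every `ε > 0`, for instance `ℙⁿ(ℚ)` with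
`γ = n + 1`, or the points of a subvariety.  `X` is the intersection of `s ≥ 0` hypersurfaces
`G_j = 0` of degrees `e_j`, and `φ = (F_1 : … : F_r : -(F_1 + … + F_r))` is the map to the
hyperplane given by `r` forms of degree `d`.  The `M` coefficients of the `G_j` and `F_i` run
through `[-H, H]`.

Let `κ ≥ 1` and `κ d < r d - γ + ∑ e_j`.  For all but `C T^(M - (s + r - κ) + ε)` of the pairs
`(X, φ)` (`H ≤ T`) the inequality `rad (P) ≥ κ h (P)` holds for ALL points `P = φ(y)` with nonzero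
coordinates, where `y` runs over all points of `𝒴` on `X` which are cut out by `n` hyperplanes with
integral coefficients in `[-T, T]`, in particular over all points of height at most `log T`.  This
is the inequality `h (P) < (1 + ε) rad (P) + C` of the conjecture in a stronger form, without an
exceptional set `Z`, and without a constant.

* `Box n d B` : forms of degree `d` in `n + 1` variables, integral coefficients in `[-B, B]`;
* `Prim y` : the integral vector `y` has coprime coordinates;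
* `CutOut T x` : `x` is the intersection point of `n` independent hyperplanes with integral
  coefficients in `[-T, T]`;
* `vals v` : the vector `(v_1, …, v_r, -(v_1 + … + v_r))`;
* `hgt z`, `rad z` : height and radical of the point with the integral coordinates `z i ≠ 0`, the
  radical is the sum of `log p` over the primes at which the orders of the `z i` are not all equal;
* `FailsN` : the systems for which the inequality is violated at some point.
-/

namespace Pool.Agent.Results.MP_7475bd_nt.AllValuesOfAlmostAllMaps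

open MvPolynomial
open Pool.Agent.Q256.CI Pool.Agent.Q256.VT Pool.Agent.Q256.VS Pool.Agent.Q35.AV

theorem result (n s r : ℕ) (hr : 2 ≤ r) (e : Fin s → ℕ) (d : ℕ)
    (𝒴 : Set (Fin (n + 1) → ℤ)) (hprim : ∀ y ∈ 𝒴, Prim y) (γ : ℝ)
    (hγ : ∀ ε : ℝ, 0 < ε → ∃ C : ℝ, ∀ B : ℕ, 1 ≤ B →
      (Nat.card {y : Fin (n + 1) → ℤ // y ∈ 𝒴 ∧ ∀ k, |y k| ≤ B} : ℝ) ≤ C * (B : ℝ) ^ (γ + ε))
    (κ : ℝ) (hκ1 : 1 ≤ κ) (hκ : κ * d < r * d - γ + (∑ j, (e j : ℝ))) (ε : ℝ) (hε : 0 < ε) :
    (∃ C : ℝ, ∀ (H T : ℕ), 1 ≤ H → H ≤ T →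
      (Nat.card (FailsN (n := n) (r := r) e d 𝒴 H T κ) : ℝ) ≤ C * (T : ℝ) ^
        ((∑ j, ((n + e j).choose n : ℝ)) + r * ((n + d).choose n : ℝ) - (s + r - κ) + ε)) ∧
    -- the number of all systems, and the points of small height
    (∀ H : ℕ, Nat.card {P : Sys n s r // InBox e (fun _ => d) H P} =
      (2 * H + 1) ^ ((∑ j, (n + e j).choose n) + r * (n + d).choose n)) ∧
    (∀ (T : ℕ) (y : Fin (n + 1) → ℤ), y ≠ 0 → (∀ j, |y j| ≤ T) →
      CutOut T (fun j => (y j : ℚ))) ∧
    -- the example `ℙⁿ(ℚ)`, `γ = n + 1`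
    (∀ ε : ℝ, 0 < ε → ∃ C : ℝ, ∀ B : ℕ, 1 ≤ B →
      (Nat.card {y : Fin (n + 1) → ℤ // y ∈ {y : Fin (n + 1) → ℤ | Prim y} ∧ ∀ k, |y k| ≤ B} : ℝ) ≤
        C * (B : ℝ) ^ (((n : ℝ) + 1) + ε)) := by
  refine ⟨?_, fun H => ?_, fun T y hy hT => cutOut_small T y hy hT, fun ε hε => ?_⟩
  · obtain ⟨C, hC⟩ := failsN (n := n) (r := r) (by omega) e d 𝒴 hprim (fun y => γ * ht y)
      (conv_count 𝒴 hprim γ hγ) γ 0 (fun y _ => by simp) κ hκ1 (by linarith) ε hε
    exact ⟨C, fun H T hH hHT => hC H T (hH.trans hHT) hHT⟩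
  · rw [total2, Finset.sum_const, Finset.card_univ, Fintype.card_fin, smul_eq_mul]
  · refine ⟨3 ^ (n + 1), fun B hB => ?_⟩
    have h1 : Nat.card {y : Fin (n + 1) → ℤ // y ∈ {y : Fin (n + 1) → ℤ | Prim y} ∧
        ∀ k, |y k| ≤ B} ≤ (2 * B + 1) ^ (n + 1) := by
      have h2 : {y : Fin (n + 1) → ℤ | y ∈ {y : Fin (n + 1) → ℤ | Prim y} ∧ ∀ k, |y k| ≤ B} ⊆
          ((Fintype.piFinset (fun _ : Fin (n + 1) => Finset.Icc (-(B : ℤ)) B) :
            Finset (Fin (n + 1) → ℤ)) : Set (Fin (n + 1) → ℤ)) := by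
        rintro y ⟨-, hy⟩
        rw [Finset.mem_coe, Fintype.mem_piFinset]
        intro k
        rw [Finset.mem_Icc, ← abs_le]
        exact hy k
      have h3 := Nat.card_mono (Finset.finite_toSet _) h2
      refine h3.trans (le_of_eq ?_)
      rw [Nat.card_coe_set_eq, Set.ncard_coe_finset, Fintype.card_piFinset, Finset.prod_const,
        Finset.card_univ, Fintype.card_fin, Int.card_Icc]
      congr 1
      omega
    have hBr : (1 : ℝ) ≤ B := by exact_mod_cast hB
    calc (Nat.card {y : Fin (n + 1) → ℤ // y ∈ {y : Fin (n + 1) → ℤ | Prim y} ∧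
            ∀ k, |y k| ≤ B} : ℝ) ≤ ((2 * B + 1) ^ (n + 1) : ℕ) := by exact_mod_cast h1
      _ = (2 * (B : ℝ) + 1) ^ (n + 1) := by push_cast; ring
      _ ≤ (3 * (B : ℝ)) ^ (n + 1) := pow_le_pow_left₀ (by positivity) (by linarith) _
      _ = 3 ^ (n + 1) * (B : ℝ) ^ ((n : ℝ) + 1) := by
          rw [mul_pow, ← Real.rpow_natCast (B : ℝ)]
          push_cast
          rfl
      _ ≤ _ := by
          refine mul_le_mul_of_nonneg_left ?_ (by positivity)
          exact Real.rpow_le_rpow_of_exponent_le hBr (by linarith)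

end Pool.Agent.Results.MP_7475bd_nt.AllValuesOfAlmostAllMaps
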