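import Pool.Agent.Q183.AR.AbcN
import Pool.Agent.Q183.AR.Szp

/-!
# MP_7475bd_nt: the abcd inequality along linear recurrences over number fields
-/

set_option autoImplicit false

namespace Pool.Agent.Results.MP_7475bd_nt.AlongRecurrences

open NumberField Pool.Agent.Q183.AR IsDedekindDomain

variable {K : Type} [Field K] [NumberField K] {J : Type} [Fintype J] {N : ℕ}

/-- the height `h` of the problem, with Mathlib's logarithmic height -/
noncomputable def ht (P : Fin (N + 1) → K) : ℝ := Height.logHeight P / Module.finrank ℚ K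

/-- the primes at which the valuations of the coordinates are not all equal -/
def bad (P : Fin (N + 1) → K) : Set (HeightOneSpectrum (𝓞 K)) :=
  {v | ∃ i i', v.valuation K (P i) ≠ v.valuation K (P i')}

/-- the radical of the problem -/
noncomputable def rad (P : Fin (N + 1) → K) : ℝ :=
  (∑ᶠ v ∈ bad P, Real.log (Ideal.absNorm v.asIdeal)) / Module.finrank ℚ K

/-- the coordinate `A_i(t) = κ_i μ_i ^ t ∏ g_j(t) ^ e_ij` of the point `P_t` -/
def A (κ μ : Fin (N + 1) → 𝓞 K) (g : J → ℕ → 𝓞 K) (e : Fin (N + 1) → J → ℕ) (i : Fin (N + 1))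
    (t : ℕ) : 𝓞 K := κ i * μ i ^ t * ∏ j, g j t ^ e i j

/-- the smallest exponent `m_j` -/
def minExp (e : Fin (N + 1) → J → ℕ) (j : J) : ℕ :=
  Finset.univ.inf' Finset.univ_nonempty fun i => e i j

/-- the multiplicity `x_j`: the largest of the sums `∑ min (e_f(k)j - m_j) k`, `k < N`, `f` an
injective map from the numbers `k < N` to the indices `i` of the coordinates -/
noncomputable def mult (e : Fin (N + 1) → J → ℕ) (j : J) : ℕ :=
  (Finset.univ : Finset (Fin N ↪ Fin (N + 1))).sup fun f => ∑ k, min (e (f k) j - minExp e j) k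

/-- the indices `j` with exponents `e_ij` which are not all equal -/
def uneq (e : Fin (N + 1) → J → ℕ) : Finset J :=
  Finset.univ.filter fun j => ∃ i i', e i j ≠ e i' j

/-- the inequalities for `P_s` -/
def Good (κ μ : Fin (N + 1) → 𝓞 K) (g : J → ℕ → 𝓞 K) (e : Fin (N + 1) → J → ℕ) (C : ℝ) (s : ℕ) :
    Prop :=
  (∀ i, A κ μ g e i s ≠ 0) ∧
  ht (fun i => (A κ μ g e i s : K)) ≤
    (∑ j, mult e j * Real.log |((Algebra.norm ℚ (g j s : K) : ℚ) : ℝ)|) / Module.finrank ℚ K + C ∧
  (Squarefree (Ideal.span {∏ j ∈ uneq e, g j s}) →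
    ht (fun i => (A κ μ g e i s : K)) ≤
      (Finset.univ.sup fun j => mult e j : ℕ) * rad (fun i => (A κ μ g e i s : K)) + C)

theorem result (hN : 0 < N) (g : J → ℕ → 𝓞 K)
    (hg : ∀ j, ∃ E : LinearRecurrence (𝓞 K), E.IsSolution (g j)) (κ μ : Fin (N + 1) → 𝓞 K)
    (hμ : ∀ i, μ i ≠ 0) (e : Fin (N + 1) → J → ℕ) (hsum : ∀ t, ∑ i, A κ μ g e i t = 0) :
    (∀ j, mult e j ≤ N.choose 2) ∧
    (∀ j i, (∀ i', i' ≠ i → e i' j = minExp e j) → mult e j ≤ min (e i j - minExp e j) (N - 1)) ∧
    ∃ Λ : Finset (Fin (N + 1) → K), (∀ c ∈ Λ, c ≠ 0 ∧ c (Fin.last N) = 0) ∧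
      ∀ η : ℝ, 0 < η → ∃ (C : ℝ) (T z : ℕ), ∀ t m : ℕ, z ≤ t → T ≤ m →
        (({s | t ≤ s ∧ s < t + m ∧ (∀ c ∈ Λ, ∑ i, c i * (A κ μ g e i s : K) ≠ 0) ∧
          ¬ Good κ μ g e C s}.ncard : ℕ) : ℝ) ≤ η * m := by
  classical
  refine ⟨loss_le e, loss_single e, ?_⟩
  obtain ⟨M, hM, h⟩ := abcMulN hN g hg κ μ hμ e hsum
  obtain ⟨B, hB0, hB⟩ := sqf_radN κ μ hμ g e
  let R : ℕ → (Fin (N + 1) → K) → Prop := fun ρ c => c (Fin.last N) = 0 ∧ c ≠ 0 ∧ ∃ z : ℕ,
    ∀ t, z ≤ t → t ≡ ρ [MOD M] → ∑ i, c i * (trm κ μ g e i t : K) = 0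
  let F : ℕ → Finset (Fin (N + 1) → K) := fun ρ => if hρ : ∃ c, R ρ c then {hρ.choose} else ∅
  let Λ := (Finset.range M).biUnion F
  refine ⟨Λ, ?_, ?_⟩
  · intro c hc
    obtain ⟨ρ, -, hcρ⟩ := Finset.mem_biUnion.1 hc
    simp only [F] at hcρ
    split_ifs at hcρ with hρ
    · rw [Finset.mem_singleton] at hcρ
      rw [hcρ]
      exact ⟨hρ.choose_spec.2.1, hρ.choose_spec.1⟩
    · exact absurd hcρ (Finset.notMem_empty _)
  have hd : (1 : ℝ) ≤ Module.finrank ℚ K := by exact_mod_cast Module.finrank_pos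
  set X : ℕ := Finset.univ.sup fun j => mult e j with hX
  have hmult : mult e = loss e := rfl
  have hmono : MonoC fun C s => (∀ c ∈ Λ, ∑ i, c i * (A κ μ g e i s : K) ≠ 0) →
      Good κ μ g e C s := by
    intro C C' s hCC h1 h2
    obtain ⟨h3, h4, h5⟩ := h1 h2
    exact ⟨h3, by linarith, fun h6 => by have := h5 h6; linarith⟩
  have hAA : AA fun C s => (∀ c ∈ Λ, ∑ i, c i * (A κ μ g e i s : K) ≠ 0) → Good κ μ g e C s := by
    refine AA.ofCls hM (fun ρ' => ?_) hmono
    -- reduce to the residue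
    have hred : ∀ s, s ≡ ρ' [MOD M] → s ≡ ρ' % M [MOD M] := fun s hs =>
      hs.trans (Nat.mod_modEq ρ' M).symm
    by_cases hρ : ∃ c, R (ρ' % M) c
    · obtain ⟨z, hz⟩ := hρ.choose_spec.2.2
      refine AA.ofLarge 0 z (fun C C' s hCC h1 h2 => hmono C C' s hCC (h1 h2))
        fun s hs hsρ hΛ => absurd (hz s hs (hred s hsρ)) (hΛ _ ?_)
      refine Finset.mem_biUnion.2 ⟨ρ' % M, Finset.mem_range.2 (Nat.mod_lt _ hM), ?_⟩
      simp only [F]
      rw [dif_pos hρ]
      exact Finset.mem_singleton_self _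
    · have h1 := (h (ρ' % M)).resolve_left (by
        rintro ⟨c, z, hc0, hc1, hc2⟩
        exact hρ ⟨c, hc0, hc1, z, hc2⟩)
      refine h1.imp (fun C => |Real.log C| + X * B + 1) 0 (fun C hC => by positivity)
        fun C s hC _ h2 hs _ => ?_
      obtain ⟨h9, h10⟩ := h2 (hred s hs)
      have hgne : ∀ j, loss e j ≠ 0 → g j s ≠ 0 := by
        intro j hj h0
        obtain ⟨i, hi⟩ := loss_ne hj
        have hi' : e i j ≠ 0 := by
          have := mn_le e i j
          omega
        apply h9 i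
        unfold trm
        rw [Finset.prod_eq_zero (Finset.mem_univ j) (by rw [h0, zero_pow hi']), mul_zero]
      have hn1 : ∀ j, loss e j ≠ 0 → 1 ≤ |((Algebra.norm ℚ (g j s : K) : ℚ) : ℝ)| := by
        intro j hj
        rw [norm_span]
        exact_mod_cast Nat.one_le_iff_ne_zero.2 (Ideal.absNorm_eq_zero_iff.not.2
          (fun h0 => hgne j hj (Ideal.span_singleton_eq_bot.1 h0)))
      have hP' : 0 < ∏ j, |((Algebra.norm ℚ (g j s : K) : ℚ) : ℝ)| ^ loss e j := by
        refine Finset.prod_pos fun j _ => ?_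
        by_cases hj : loss e j = 0
        · rw [hj, pow_zero]
          exact one_pos
        · exact pow_pos (lt_of_lt_of_le one_pos (hn1 j hj)) _
      have hlogP : Real.log (∏ j, |((Algebra.norm ℚ (g j s : K) : ℚ) : ℝ)| ^ loss e j) =
          ∑ j, mult e j * Real.log |((Algebra.norm ℚ (g j s : K) : ℚ) : ℝ)| := by
        rw [Real.log_prod fun j _ => ?_]
        · refine Finset.sum_congr rfl fun j _ => ?_
          rw [Real.log_pow]
          rfl
        · by_cases hj : loss e j = 0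
          · rw [hj, pow_zero]
            exact one_ne_zero
          · exact pow_ne_zero _ (ne_of_gt (lt_of_lt_of_le one_pos (hn1 j hj)))
      have hcommon : ht (fun i => (trm κ μ g e i s : K)) ≤
          (∑ j, mult e j * Real.log |((Algebra.norm ℚ (g j s : K) : ℚ) : ℝ)|) /
            Module.finrank ℚ K + |Real.log C| := by
        have hh : 1 ≤ Height.mulHeight (fun i => (trm κ μ g e i s : K)) :=
          Height.one_le_mulHeight _
        unfold ht
        rw [Height.logHeight_eq_log_mulHeight]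
        have h11 := Real.log_le_log (by linarith) h10
        rw [Real.log_mul hC.ne' hP'.ne', hlogP] at h11
        have hd0 : (0 : ℝ) < Module.finrank ℚ K := by linarith
        rw [div_add' _ _ _ hd0.ne']
        refine div_le_div_of_nonneg_right (h11.trans ?_) hd0.le
        have h12 : Real.log C ≤ |Real.log C| * Module.finrank ℚ K :=
          (le_abs_self _).trans (le_mul_of_one_le_right (abs_nonneg _) hd)
        linarith
      have hXB : 0 ≤ (X : ℝ) * B := mul_nonneg (Nat.cast_nonneg _) hB0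
      refine ⟨h9, ?_, fun hsq => ?_⟩
      · change ht (fun i => (trm κ μ g e i s : K)) ≤ _
        linarith
      · have h11 := hB s h9 hsq
        change ht (fun i => (trm κ μ g e i s : K)) ≤
          (X : ℝ) * radN (fun i => (trm κ μ g e i s : K)) + (|Real.log C| + X * B + 1)
        have hu : ∀ j ∈ uneqN e, 1 ≤ |((Algebra.norm ℚ (g j s : K) : ℚ) : ℝ)| := by
          intro j hj
          have hgj : g j s ≠ 0 := by
            obtain ⟨i, i', h1⟩ := (Finset.mem_filter.1 hj).2
            have hz : ∀ i, e i j ≠ 0 → g j s ≠ 0 := by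
              intro i hij h0
              apply h9 i
              unfold trm
              rw [Finset.prod_eq_zero (Finset.mem_univ j) (by rw [h0, zero_pow hij]), mul_zero]
            by_cases h2 : e i j = 0
            · exact hz i' fun h3 => h1 (h2.trans h3.symm)
            · exact hz i h2
          rw [norm_span]
          exact_mod_cast Nat.one_le_iff_ne_zero.2 (Ideal.absNorm_eq_zero_iff.not.2
            (fun h0 => hgj (Ideal.span_singleton_eq_bot.1 h0)))
        have h12 : ∑ j, mult e j * Real.log |((Algebra.norm ℚ (g j s : K) : ℚ) : ℝ)| ≤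
            X * Real.log (∏ j ∈ uneqN e, |((Algebra.norm ℚ (g j s : K) : ℚ) : ℝ)|) := by
          rw [Real.log_prod fun j hj => (lt_of_lt_of_le one_pos (hu j hj)).ne', Finset.mul_sum,
            ← Finset.sum_subset (Finset.subset_univ (uneqN e))]
          · refine Finset.sum_le_sum fun j hj => ?_
            refine mul_le_mul_of_nonneg_right ?_ (Real.log_nonneg (hu j hj))
            have : mult e j ≤ X := Finset.le_sup (f := fun j => mult e j) (Finset.mem_univ j)
            exact_mod_cast this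
          · intro j _ hj
            have : mult e j = 0 := loss_eq_zero hj
            rw [this]
            simp
        have hd0 : (0 : ℝ) < Module.finrank ℚ K := by linarith
        have h13 : (∑ j, mult e j * Real.log |((Algebra.norm ℚ (g j s : K) : ℚ) : ℝ)|) /
            Module.finrank ℚ K ≤ X * (radN (fun i => (trm κ μ g e i s : K)) + B) := by
          calc _ ≤ X * Real.log (∏ j ∈ uneqN e, |((Algebra.norm ℚ (g j s : K) : ℚ) : ℝ)|) /
                Module.finrank ℚ K := div_le_div_of_nonneg_right h12 hd0.le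
            _ = X * (Real.log (∏ j ∈ uneqN e, |((Algebra.norm ℚ (g j s : K) : ℚ) : ℝ)|) /
                Module.finrank ℚ K) := by ring
            _ ≤ _ := mul_le_mul_of_nonneg_left h11 (Nat.cast_nonneg _)
        linarith
  intro η hη
  obtain ⟨C, T, z, hC, h1⟩ := hAA η hη
  refine ⟨C, T, z, fun t m ht hm => le_trans ?_ (h1 t m ht hm)⟩
  have h2 : {s | t ≤ s ∧ s < t + m ∧ (∀ c ∈ Λ, ∑ i, c i * (A κ μ g e i s : K) ≠ 0) ∧
      ¬ Good κ μ g e C s} ⊆ {s | t ≤ s ∧ s < t + m ∧
        ¬ ((∀ c ∈ Λ, ∑ i, c i * (A κ μ g e i s : K) ≠ 0) → Good κ μ g e C s)} := by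
    rintro s ⟨h3, h4, h5, h6⟩
    exact ⟨h3, h4, fun h7 => h6 (h7 h5)⟩
  exact_mod_cast Set.ncard_le_ncard h2 ((Set.finite_Ico t (t + m)).subset fun _ hs => ⟨hs.1, hs.2.1⟩)

end Pool.Agent.Results.MP_7475bd_nt.AlongRecurrences
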