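import Mathlib
import Pool.Agent.Q273.TO.Zed

/-!
# The metric theory of the `n`-term abc inequality

`K` is a number field and `n ≥ 1`; the points are the `z = [z_0 : ... : z_(n+1)]` with
`z_0 + ... + z_(n+1) = 0` and all `z_i ≠ 0` (so there are `n + 2` terms). Their height is `ht`, the
radical is `rad`, and `radOff z j` is the radical of the tuple without `z_j`; all quantities are taken
relative to `K`. The hyperplane is identified with `ℙ^n` by `(z_1 / z_0, ..., z_n / z_0)`, and the target is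
an adelic point `p = (ξ, η)`: `ξ` in `(K ⊗ ℝ)^n`, `η` in the product over all primes `v` of `O_v^n`.
`prox V p z` is the sum of the local proximities of `z` to `p` over all infinite places and over the
primes in the finite set `V`.

For almost every `p` the inequality `h(z) + n m_V(z) ≤ rad(z) + ε h(z) + C` holds for all `z` with
`n m_V(z) ≥ (n + 1/2 + ε) h(z)` or `rad(z) ≥ (n + 3/2 + ε) h(z)`; in this range the set of the limit points
of (proximity at each place, radical) is determined completely, with every distribution of the loss among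
the `n + 2` terms, and so is the Hausdorff dimension of the set of the `ξ` which have approximations of
order `τ` by points with `rad ≤ ρ h`, for every `τ > 0` and `n + 3/2 ≤ ρ ≤ n + 2`.
-/

set_option autoImplicit false

open MeasureTheory NumberField Height Finset IsDedekindDomain
open NumberField.mixedEmbedding
open Q273.SPL.Nad

namespace Pool.Agent.Results.MP_7475bd_nt.MetricAbcdLaw

variable {K : Type} [Field K] [NumberField K] {n : ℕ}

/-- `(τ, σ, ρ)` is a limit, for points with `h → ∞`, of `(n m_w / h, n m_v / h, rad / h)`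
(`w` infinite, `v ∈ V`) -/
def IsLimit (V : Finset (HeightOneSpectrum (𝓞 K)))
    (p : (Fin n → mixedSpace K) × FinAd K n) (τ : InfinitePlace K → ℝ)
    (σ : HeightOneSpectrum (𝓞 K) → ℝ) (ρ : ℝ) : Prop :=
  ∀ ε : ℝ, 0 < ε → ∀ B : ℝ, ∃ z : Fin (n + 2) → K, ∑ i, z i = 0 ∧ (∀ i, z i ≠ 0) ∧ B ≤ ht z ∧
    (∀ w, |n * mw p.1 w z / ht z - τ w| ≤ ε) ∧
    (∀ v ∈ V, |n * mv p.2 v z / ht z - σ v| ≤ ε) ∧
    |rad z / ht z - ρ| ≤ ε

open scoped Classical in
/-- the set of the `ξ` for which there are points, with `h → ∞`, at distance at most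
`exp (-(τ - o(1)) h)` from `ξ` (maximum over all infinite places and all coordinates) and with
`rad ≤ (ρ + o(1)) h` -/
def Approximable (K : Type) [Field K] [NumberField K] (n : ℕ) (τ ρ : ℝ) :
    Set (Fin n → mixedSpace K) :=
  {ξ | ∀ ε : ℝ, 0 < ε → ∀ B : ℝ, ∃ z : Fin (n + 2) → K, ∑ i, z i = 0 ∧ (∀ i, z i ≠ 0) ∧ B ≤ ht z ∧
    ‖ξ - fun i => mixedEmbedding K (z i.succ.castSucc / z 0)‖ ≤ Real.exp (-((τ - ε) * ht z)) ∧
    rad z ≤ (ρ + ε) * ht z}

open scoped Classical in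
/-- **The metric theory of the `n`-term abc inequality.** Let `μ` be a finite translation
invariant Borel measure on the compact group `FinAd K n` (a multiple of Haar measure).
(I) For almost every adelic point `p` with respect to the product of Lebesgue measure and `μ`, for every
finite set `V` of primes: (1) for every `ε > 0` there is `C` such that all points `z` of the hyperplane
with nonzero coordinates and `n m_V(z) ≥ (n + 1/2 + ε) h(z)` or `rad(z) ≥ (n + 3/2 + ε) h(z)` satisfy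
`h(z) + n m_V(z) ≤ rad(z) + ε h(z) + C`;
(2) if `ρ ≥ n + 3/2` or `∑ τ_w + ∑ σ_v > n + 1/2`, then `(τ, σ, ρ)` is a limit, `h → ∞`, of
`(n m_w / h, n m_v / h, rad / h)` if and only if `τ_w ≥ 0`, `σ_v ≥ 0` and
`1 + ∑ τ_w + ∑ σ_v ≤ ρ ≤ n + 2`;
(3) in that case, for every `δ_i ≥ 0` of sum `n + 2 - ρ` there are such points which in addition satisfy
`rad_j / h → n + 1 - ∑_(i ≠ j) δ_i` for every `j`.
(II) For every `τ > 0` and `n + 3/2 ≤ ρ ≤ n + 2` the Hausdorff dimension of `Approximable K n τ ρ` is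
`min (n [K : ℚ]) ((ρ - 1) / τ)`. -/
theorem result (K : Type) [Field K] [NumberField K] (n : ℕ) (hn : 1 ≤ n)
    [MeasurableSpace (FinAd K n)] [BorelSpace (FinAd K n)] (μ : Measure (FinAd K n))
    [IsFiniteMeasure μ] [μ.IsAddLeftInvariant] :
    (∀ᵐ p : (Fin n → mixedSpace K) × FinAd K n ∂(volume.prod μ),
      ∀ V : Finset (HeightOneSpectrum (𝓞 K)),
        (∀ ε : ℝ, 0 < ε → ∃ C : ℝ, ∀ z : Fin (n + 2) → K, ∑ i, z i = 0 → (∀ i, z i ≠ 0) →
          (((n : ℝ) + 1 / 2 + ε) * ht z ≤ n * prox V p z ∨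
              ((n : ℝ) + 3 / 2 + ε) * ht z ≤ rad z →
            ht z + n * prox V p z ≤ rad z + ε * ht z + C)) ∧
        ∀ (τ : InfinitePlace K → ℝ) (σ : HeightOneSpectrum (𝓞 K) → ℝ) (ρ : ℝ),
          ((n : ℝ) + 3 / 2 ≤ ρ ∨ (n : ℝ) + 1 / 2 < ∑ w, τ w + ∑ v ∈ V, σ v) →
          (IsLimit V p τ σ ρ ↔ (∀ w, 0 ≤ τ w) ∧ (∀ v ∈ V, 0 ≤ σ v) ∧ ρ ≤ n + 2 ∧
            1 + ∑ w, τ w + ∑ v ∈ V, σ v ≤ ρ) ∧
          (IsLimit V p τ σ ρ → ∀ δ : Fin (n + 2) → ℝ, (∀ i, 0 ≤ δ i) → ∑ i, δ i = n + 2 - ρ →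
            ∀ ε : ℝ, 0 < ε → ∀ B : ℝ, ∃ z : Fin (n + 2) → K, ∑ i, z i = 0 ∧ (∀ i, z i ≠ 0) ∧
              B ≤ ht z ∧
              (∀ w, |n * mw p.1 w z / ht z - τ w| ≤ ε) ∧
              (∀ v ∈ V, |n * mv p.2 v z / ht z - σ v| ≤ ε) ∧
              |rad z / ht z - ρ| ≤ ε ∧
              ∀ j, |radOff z j / ht z - ((n : ℝ) + 1 - (∑ i, δ i - δ j))| ≤ ε)) ∧
    ∀ τ ρ : ℝ, 0 < τ → (n : ℝ) + 3 / 2 ≤ ρ → ρ ≤ n + 2 →
      dimH (Approximable K n τ ρ) =
        ENNReal.ofReal (min (n * (Module.finrank ℚ K : ℝ)) ((ρ - 1) / τ)) := by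
  refine ⟨?_, fun τ ρ hτ hρ0 hρ => ?_⟩
  · filter_upwards [lawB K n hn μ, Q273.AD.gen_aeA μ, Q273.AD.lawA Q273.AD.fae' hn μ]
      with p hlawB hgen hlaw
    intro V
    refine ⟨(hlawB V).1, fun τ σ ρ hr => ?_⟩
    have hiff : IsLimit V p τ σ ρ ↔ (∀ w, 0 ≤ τ w) ∧ (∀ v ∈ V, 0 ≤ σ v) ∧ ρ ≤ n + 2 ∧
        1 + ∑ w, τ w + ∑ v ∈ V, σ v ≤ ρ := by
      refine (Q273.TO.limZ2 V p τ σ ρ).trans ((Q273.PD.LimN.iff hn (by omega) hgen ∅ V _
        Q273.PN.fm_ne (fun i l hil => Q273.PN.fm_dist i l hil hn) (hlaw _ _ Q273.PN.fm_ne ∅)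
        (Δ := (n : ℝ) + 2 - ρ) ?_).trans ?_)
      · rcases hr with h | h
        · left
          linarith
        · exact Or.inr h
      · constructor
        · rintro ⟨h1, h2, h3, h4⟩
          exact ⟨h1, h2, by linarith, by linarith⟩
        · rintro ⟨h1, h2, h3, h4⟩
          exact ⟨h1, h2, by linarith, by linarith⟩
    refine ⟨hiff, fun hlim δ hδ hs ε hε B => ?_⟩
    obtain ⟨h1, h2, h3, h4⟩ := hiff.1 hlim
    have hσs : ∑ v ∈ V, max (σ v) 0 = ∑ v ∈ V, σ v :=
      Finset.sum_congr rfl fun v hv => max_eq_left (h2 v hv)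
    obtain ⟨z, g1, g2, g3, g4, g5, g6, g7⟩ := (hlawB V).2 τ (fun v => max (σ v) 0) δ h1
      (fun v => le_max_right _ _) hδ (by
        rw [hs]
        rcases hr with h | h <;> linarith) (by rw [hσs, hs]; linarith) ε hε B
    refine ⟨z, g1, g2, g3, g4, fun v hv => ?_, ?_, g7⟩
    · have := g5 v hv
      simp only [max_eq_left (h2 v hv)] at this
      exact this
    · rw [hs] at g6
      have e : (n : ℝ) + 2 - (n + 2 - ρ) = ρ := by ring
      rw [e] at g6
      exact g6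
  · have h := Q273.PD.dimN hn ∅ (Q273.PN.fm K n) Q273.PN.fm_ne
      (fun i l hil => Q273.PN.fm_dist i l hil hn) (τ := τ) (Δ := (n : ℝ) + 2 - ρ) hτ (by linarith)
      (by linarith) (Or.inr (by omega))
    rw [← Q273.TO.setZ2 τ ρ] at h
    have e : (n : ℝ) + 1 - (n + 2 - ρ) = ρ - 1 := by ring
    rw [e] at h
    exact h

end Pool.Agent.Results.MP_7475bd_nt.MetricAbcdLaw
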