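import Mathlib
import Pool.Agent.Q273.TO.Zed

/-!
# The metric theory of the radical of all terms but one

`K` is a number field and `n ≥ 1`; the points are the `z = [z_0 : ... : z_(n+1)]` with
`z_0 + ... + z_(n+1) = 0` and all `z_i ≠ 0` (so there are `n + 2` terms). Their height is `ht`, the
radical is `rad`, and `radOff z j` is the radical of the tuple without `z_j`; all quantities are taken
relative to `K`. The hyperplane is identified with `ℙ^n` by `(z_1 / z_0, ..., z_n / z_0)`, and the target is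
an adelic point `p = (ξ, η)`: `ξ` in `(K ⊗ ℝ)^n`, `η` in the product over all primes `v` of `O_v^n`.
`prox V p z` is the sum of the local proximities of `z` to `p` over all infinite places and over the
primes in the finite set `V`.

For almost every `p` ALL points `z` satisfy `n m_V(z) ≤ rad_j(z) + ε h(z) + C`, for every `j`, so that the
inequality of the `n`-term abc conjecture holds for all `z` with `n m_V(z) ≥ h(z)`; and apart from the
trivial bounds this is the only relation between the proximities and `rad_j`: the set of the limit points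
of (proximity at each place, `rad_j`) is determined completely, without any restriction of the range. The
Hausdorff dimension of the set of the `ξ` which have approximations of order `τ` by points with
`rad_j ≤ ρ h` is determined for all `τ > 0` and all `ρ`.
-/

set_option autoImplicit false

open MeasureTheory NumberField Height Finset IsDedekindDomain
open NumberField.mixedEmbedding
open Q273.SPL.Nad

namespace Pool.Agent.Results.MP_7475bd_nt.MetricLawOfPartialRadicals

variable {K : Type} [Field K] [NumberField K] {n : ℕ}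

/-- `(τ, σ, ρ)` is a limit, for points with `h → ∞`, of `(n m_w / h, n m_v / h, rad_j / h)`
(`w` infinite, `v ∈ V`) -/
def IsLimit (V : Finset (HeightOneSpectrum (𝓞 K))) (j : Fin (n + 2))
    (p : (Fin n → mixedSpace K) × FinAd K n) (τ : InfinitePlace K → ℝ)
    (σ : HeightOneSpectrum (𝓞 K) → ℝ) (ρ : ℝ) : Prop :=
  ∀ ε : ℝ, 0 < ε → ∀ B : ℝ, ∃ z : Fin (n + 2) → K, ∑ i, z i = 0 ∧ (∀ i, z i ≠ 0) ∧ B ≤ ht z ∧
    (∀ w, |n * mw p.1 w z / ht z - τ w| ≤ ε) ∧
    (∀ v ∈ V, |n * mv p.2 v z / ht z - σ v| ≤ ε) ∧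
    |radOff z j / ht z - ρ| ≤ ε

open scoped Classical in
/-- the set of the `ξ` for which there are points, with `h → ∞`, at distance at most
`exp (-(τ - o(1)) h)` from `ξ` (maximum over all infinite places and all coordinates) and with
`rad_j ≤ (ρ + o(1)) h` -/
def Approximable (K : Type) [Field K] [NumberField K] (n : ℕ) (j : Fin (n + 2)) (τ ρ : ℝ) :
    Set (Fin n → mixedSpace K) :=
  {ξ | ∀ ε : ℝ, 0 < ε → ∀ B : ℝ, ∃ z : Fin (n + 2) → K, ∑ i, z i = 0 ∧ (∀ i, z i ≠ 0) ∧ B ≤ ht z ∧
    ‖ξ - fun i => mixedEmbedding K (z i.succ.castSucc / z 0)‖ ≤ Real.exp (-((τ - ε) * ht z)) ∧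
    radOff z j ≤ (ρ + ε) * ht z}

open scoped Classical in
/-- **The metric theory of the radical of all terms but one.** Let `μ` be a finite translation
invariant Borel measure on the compact group `FinAd K n` (a multiple of Haar measure).
(I) For almost every adelic point `p` with respect to the product of Lebesgue measure and `μ`, for every
finite set `V` of primes: (1) for every `ε > 0` there is `C` such that ALL points `z` of the hyperplane
with nonzero coordinates satisfy `n m_V(z) ≤ rad_j(z) + ε h(z) + C` for every `j`, and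
`h(z) < (1 + ε) rad(z) + C` if `n m_V(z) ≥ h(z)`;
(2) for every `j`, `(τ, σ, ρ)` is a limit, `h → ∞`, of `(n m_w / h, n m_v / h, rad_j / h)` if and only if
`τ_w ≥ 0`, `σ_v ≥ 0` and `∑ τ_w + ∑ σ_v ≤ ρ ≤ n + 1`.
(II) For every `j`, `τ > 0` and `0 ≤ ρ ≤ n + 1` the Hausdorff dimension of `Approximable K n j τ ρ` is
`min (n [K : ℚ]) (ρ / τ)`. -/
theorem result (K : Type) [Field K] [NumberField K] (n : ℕ) (hn : 1 ≤ n)
    [MeasurableSpace (FinAd K n)] [BorelSpace (FinAd K n)] (μ : Measure (FinAd K n))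
    [IsFiniteMeasure μ] [μ.IsAddLeftInvariant] :
    (∀ᵐ p : (Fin n → mixedSpace K) × FinAd K n ∂(volume.prod μ),
      ∀ V : Finset (HeightOneSpectrum (𝓞 K)),
        (∀ ε : ℝ, 0 < ε → ∃ C : ℝ, ∀ z : Fin (n + 2) → K, ∑ i, z i = 0 → (∀ i, z i ≠ 0) →
          (∀ j, n * prox V p z ≤ radOff z j + ε * ht z + C) ∧
          (ht z ≤ n * prox V p z → ht z < (1 + ε) * rad z + C)) ∧
        ∀ (j : Fin (n + 2)) (τ : InfinitePlace K → ℝ) (σ : HeightOneSpectrum (𝓞 K) → ℝ) (ρ : ℝ),
          IsLimit V j p τ σ ρ ↔ (∀ w, 0 ≤ τ w) ∧ (∀ v ∈ V, 0 ≤ σ v) ∧ ρ ≤ n + 1 ∧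
            ∑ w, τ w + ∑ v ∈ V, σ v ≤ ρ) ∧
    ∀ (j : Fin (n + 2)) (τ ρ : ℝ), 0 < τ → 0 ≤ ρ → ρ ≤ n + 1 →
      dimH (Approximable K n j τ ρ) =
        ENNReal.ofReal (min (n * (Module.finrank ℚ K : ℝ)) (ρ / τ)) := by
  refine ⟨?_, fun j τ ρ hτ hρ0 hρ => ?_⟩
  · filter_upwards [lawA K n hn μ, Q273.AD.gen_aeA μ, Q273.PN.lawS Q273.AD.fae' hn μ]
      with p hlaw hgen hlawS
    intro V
    refine ⟨hlaw V, fun j τ σ ρ => ?_⟩
    exact (Q273.TO.limZ V j p τ σ ρ).trans (Q273.TO.LimR.iff hn hgen ∅ V _ (Q273.PN.fm_indep j)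
      (hlawS _ (Q273.PN.fm_indep j) ∅) _ (Q273.PN.fm_ne j))
  · have h := Q273.TO.dimR hn ∅ (fun i => Q273.PN.fm K n (j.succAbove i)) (Q273.PN.fm_indep j)
      (Q273.PN.fm K n j) (Q273.PN.fm_ne j) hτ hρ0 hρ
    rw [← h, ← Q273.TO.setZ j τ ρ]
    rfl

end Pool.Agent.Results.MP_7475bd_nt.MetricLawOfPartialRadicals
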